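import Mathlib

/-!
# A non-convex left Bregman Chebyshev set for a Legendre function on the plane

`f(x) = exp (x₂ + x₁²)` and `C` the parabola `x₂ = - x₁²`.
-/

namespace Pool.Agent.Results.MP_bd7f44_an.LeftChebyshev

open Filter Topology

/-- `ℝⁿ` -/
abbrev Rn (n : ℕ) := EuclideanSpace ℝ (Fin n)

variable {n : ℕ}

/-- the domain of an extended real function -/
def dom (f : Rn n → EReal) : Set (Rn n) := {x | f x ≠ ⊤}

/-- the real-valued function (used on the domain only) -/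
noncomputable def re (f : Rn n → EReal) (x : Rn n) : ℝ := (f x).toReal

/-- the domain of the subdifferential -/
def domSub (f : Rn n → EReal) : Set (Rn n) :=
  {x | f x ≠ ⊤ ∧ ∃ u : Rn n, ∀ z, f x + ((inner ℝ u (z - x) : ℝ) : EReal) ≤ f z}

/-- Legendre functions: proper, lower semicontinuous, convex, essentially smooth and essentially
strictly convex -/
structure IsLegendre (f : Rn n → EReal) : Prop where
  ne_bot : ∀ x, f x ≠ ⊥
  proper : (dom f).Nonempty
  lsc : LowerSemicontinuous f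
  convex : ConvexOn ℝ (dom f) (re f)
  int_nonempty : (interior (dom f)).Nonempty
  differentiable : ∀ x ∈ interior (dom f), DifferentiableAt ℝ (re f) x
  blowup : ∀ x ∈ frontier (dom f), ∀ u : ℕ → Rn n, (∀ k, u k ∈ interior (dom f)) →
    Tendsto u atTop (𝓝 x) → Tendsto (fun k => ‖gradient (re f) (u k)‖) atTop atTop
  strict : ∀ S : Set (Rn n), Convex ℝ S → S ⊆ domSub f → StrictConvexOn ℝ S (re f)

/-- supercoercivity: `f(x)/‖x‖ → +∞` as `‖x‖ → ∞` -/
def Supercoercive (f : Rn n → EReal) : Prop :=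
  ∀ M : ℝ, ∃ R : ℝ, ∀ x : Rn n, R ≤ ‖x‖ → ((M * ‖x‖ : ℝ) : EReal) ≤ f x

open Classical in
/-- the Bregman distance -/
noncomputable def D (f : Rn n → EReal) (x y : Rn n) : EReal :=
  if f x = ⊤ then ⊤ else ((re f x - re f y - inner ℝ (gradient (re f) y) (x - y) : ℝ) : EReal)

/-- left Bregman Chebyshev sets -/
def LeftCheb (f : Rn n → EReal) (C : Set (Rn n)) : Prop :=
  ∀ y ∈ interior (dom f), ∃! x, x ∈ C ∧ ∀ z ∈ C, D f x y ≤ D f z y

/-! ### The example -/

/-- `exp (x₂ + x₁²)` -/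
noncomputable def F (x : Rn 2) : ℝ := Real.exp (x 1 + x 0 ^ 2)

/-- the same as an extended real function -/
noncomputable def f₀ (x : Rn 2) : EReal := (F x : EReal)

lemma dom_f₀ : dom f₀ = Set.univ := by
  ext x; simp [dom, f₀]

lemma re_f₀ : re f₀ = F := by
  funext x; simp [re, f₀]

lemma strict_F : StrictConvexOn ℝ Set.univ F := by
  refine ⟨convex_univ, fun x _ y _ hxy a b ha hb hab => ?_⟩
  unfold F
  have e0 : (a • x + b • y) 0 = a * x 0 + b * y 0 := rfl
  have e1 : (a • x + b • y) 1 = a * x 1 + b * y 1 := rfl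
  rw [e0, e1]
  have hb' : b = 1 - a := by linarith
  have key : a * x 1 + b * y 1 + (a * x 0 + b * y 0) ^ 2
      = a * (x 1 + x 0 ^ 2) + b * (y 1 + y 0 ^ 2) - a * b * (x 0 - y 0) ^ 2 := by
    rw [hb']; ring
  have hab0 : 0 < a * b := mul_pos ha hb
  rw [key]
  by_cases h0 : x 0 = y 0
  · have h1 : x 1 ≠ y 1 := by
      intro h1
      apply hxy
      ext i; fin_cases i
      · exact h0
      · exact h1
    have h2 : x 1 + x 0 ^ 2 ≠ y 1 + y 0 ^ 2 := by
      rw [h0]
      intro h; apply h1; linarith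
    have h3 := strictConvexOn_exp.2 (Set.mem_univ (x 1 + x 0 ^ 2)) (Set.mem_univ (y 1 + y 0 ^ 2))
      h2 ha hb hab
    simp only [smul_eq_mul] at h3 ⊢
    refine lt_of_le_of_lt (Real.exp_le_exp.mpr ?_) h3
    have : 0 ≤ a * b * (x 0 - y 0) ^ 2 := by positivity
    linarith
  · have h3 := convexOn_exp.2 (Set.mem_univ (x 1 + x 0 ^ 2)) (Set.mem_univ (y 1 + y 0 ^ 2))
      ha.le hb.le hab
    simp only [smul_eq_mul] at h3 ⊢
    refine lt_of_lt_of_le (Real.exp_lt_exp.mpr ?_) h3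
    have h4 : 0 < (x 0 - y 0) ^ 2 := by
      have : x 0 - y 0 ≠ 0 := sub_ne_zero.mpr h0
      positivity
    have : 0 < a * b * (x 0 - y 0) ^ 2 := mul_pos hab0 h4
    linarith

/-- coordinate functionals -/
noncomputable def pr (i : Fin 2) : Rn 2 →L[ℝ] ℝ := EuclideanSpace.proj i

lemma hasFDerivAt_F (y : Rn 2) :
    HasFDerivAt F (F y • (pr 1 + (2 * y 0) • pr 0)) y := by
  have h1 : HasFDerivAt (fun x : Rn 2 => x 1) (pr 1) y := (pr 1).hasFDerivAt
  have h0 : HasFDerivAt (fun x : Rn 2 => x 0) (pr 0) y := (pr 0).hasFDerivAt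
  have h2 := (h1.add (h0.pow 2)).exp
  refine h2.congr_fderiv ?_
  ext v
  simp [F]

lemma inner_grad (y v : Rn 2) : inner ℝ (gradient F y) v = F y * (v 1 + 2 * y 0 * v 0) := by
  have h1 : inner ℝ (gradient F y) v = fderiv ℝ F y v := by
    rw [gradient, InnerProductSpace.toDual_symm_apply]
  rw [h1, (hasFDerivAt_F y).fderiv]
  simp [pr]
  ring

lemma continuous_F : Continuous F := by
  have h1 : Continuous (fun x : Rn 2 => x 1) := (pr 1).continuous
  have h0 : Continuous (fun x : Rn 2 => x 0) := (pr 0).continuous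
  exact Real.continuous_exp.comp (h1.add (h0.pow 2))

lemma legendre_f₀ : IsLegendre f₀ where
  ne_bot := fun x => by simp [f₀]
  proper := by rw [dom_f₀]; exact Set.univ_nonempty
  lsc := (continuous_coe_real_ereal.comp continuous_F).lowerSemicontinuous
  convex := by rw [dom_f₀, re_f₀]; exact strict_F.convexOn
  int_nonempty := by rw [dom_f₀, interior_univ]; exact Set.univ_nonempty
  differentiable := fun x _ => by rw [re_f₀]; exact (hasFDerivAt_F x).differentiableAt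
  blowup := fun x hx => by rw [dom_f₀, frontier_univ] at hx; exact absurd hx (by simp)
  strict := fun S hS _ => by rw [re_f₀]; exact strict_F.subset (Set.subset_univ S) hS

/-- the parabola -/
def C₀ : Set (Rn 2) := {x | x 1 = -(x 0) ^ 2}

lemma D_eq {x : Rn 2} (hx : x ∈ C₀) (y : Rn 2) :
    D f₀ x y = ((1 - F y + F y * ((x 0 - y 0) ^ 2 + y 0 ^ 2 + y 1) : ℝ) : EReal) := by
  unfold D
  rw [if_neg (by simp [f₀]), re_f₀, inner_grad]
  congr 1
  have hx' : x 1 = -(x 0) ^ 2 := hx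
  have e0 : (x - y) 0 = x 0 - y 0 := rfl
  have e1 : (x - y) 1 = x 1 - y 1 := rfl
  have e2 : F x = 1 := by unfold F; rw [hx']; simp
  rw [e0, e1, e2, hx']
  ring

lemma cheb_f₀ : LeftCheb f₀ C₀ := by
  intro y _
  have hFy : 0 < F y := Real.exp_pos _
  have hp : (!₂[y 0, -(y 0) ^ 2] : Rn 2) ∈ C₀ := by
    change (!₂[y 0, -(y 0) ^ 2] : Rn 2) 1 = -((!₂[y 0, -(y 0) ^ 2] : Rn 2) 0) ^ 2
    simp
  refine ⟨!₂[y 0, -(y 0) ^ 2], ⟨hp, fun z hz => ?_⟩, ?_⟩
  · rw [D_eq hp, D_eq hz]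
    have e : (!₂[y 0, -(y 0) ^ 2] : Rn 2) 0 = y 0 := rfl
    rw [e]
    norm_cast
    nlinarith [sq_nonneg (z 0 - y 0)]
  · rintro x ⟨hx, hmin⟩
    have h1 := hmin _ hp
    rw [D_eq hp, D_eq hx] at h1
    have e : (!₂[y 0, -(y 0) ^ 2] : Rn 2) 0 = y 0 := rfl
    rw [e] at h1
    norm_cast at h1
    have h2 : F y * (x 0 - y 0) ^ 2 ≤ 0 := by nlinarith
    have h3 : (x 0 - y 0) ^ 2 = 0 := by
      have := sq_nonneg (x 0 - y 0)
      nlinarith
    have h4 : x 0 = y 0 := by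
      have := pow_eq_zero_iff (n := 2) (by norm_num) |>.mp h3
      linarith
    have hx' : x 1 = -(x 0) ^ 2 := hx
    ext i; fin_cases i
    · exact h4
    · change x 1 = -(y 0) ^ 2
      rw [hx', h4]

/-- **Theorem.** There are a Legendre function `f` on `ℝ²` (finite everywhere, not supercoercive)
and a nonempty left Bregman Chebyshev set `C ⊆ int dom f` which is not convex. -/
theorem result : ∃ n : ℕ, 1 ≤ n ∧ ∃ f : Rn n → EReal, IsLegendre f ∧ ¬ Supercoercive f ∧
    ∃ C : Set (Rn n), C.Nonempty ∧ C ⊆ interior (dom f) ∧ LeftCheb f C ∧ ¬ Convex ℝ C := by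
  refine ⟨2, by norm_num, f₀, legendre_f₀, ?_, C₀, ⟨0, by simp [C₀]⟩, ?_, cheb_f₀, ?_⟩
  · intro h
    obtain ⟨R, hR⟩ := h 1
    set r := max R 2 with hr
    have hr2 : 2 ≤ r := le_max_right _ _
    have hn : ‖(!₂[0, -r] : Rn 2)‖ = r := by
      rw [EuclideanSpace.norm_eq, Fin.sum_univ_two]
      simp [Real.sqrt_sq (show 0 ≤ r by linarith)]
    have h1 := hR !₂[0, -r] (by rw [hn]; exact le_max_left _ _)
    rw [hn, one_mul] at h1
    unfold f₀ at h1
    have h2 : r ≤ F !₂[0, -r] := by exact_mod_cast h1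
    have h3 : F !₂[0, -r] ≤ 1 := by
      unfold F
      rw [Real.exp_le_one_iff]
      change -r + 0 ^ 2 ≤ 0
      nlinarith
    linarith
  · rw [dom_f₀, interior_univ]; exact Set.subset_univ _
  · intro h
    have ha : (!₂[1, -1] : Rn 2) ∈ C₀ := by
      change (-1 : ℝ) = -(1 : ℝ) ^ 2
      norm_num
    have hb : (!₂[-1, -1] : Rn 2) ∈ C₀ := by
      change (-1 : ℝ) = -(-1 : ℝ) ^ 2
      norm_num
    have h1 := h ha hb (show (0 : ℝ) ≤ 1 / 2 by norm_num) (show (0 : ℝ) ≤ 1 / 2 by norm_num)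
      (by norm_num)
    have h2 : (1 / 2 : ℝ) * (-1) + (1 / 2) * (-1) = -((1 / 2 : ℝ) * 1 + (1 / 2) * (-1)) ^ 2 := h1
    norm_num at h2

end Pool.Agent.Results.MP_bd7f44_an.LeftChebyshev
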